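import Mathlib

open Finset

namespace Pool.Agent.Helper74.Center

variable {n : ℕ}

/-- `Y` is an `m`-centre of `σ`: no set of at most `m` coordinates separates `Y` from `σ \ {Y}` -/
def IsCenter (m : ℕ) (σ : Finset (Fin n → Bool)) (Y : Fin n → Bool) : Prop :=
  ∀ T : Finset (Fin n), T.card ≤ m → ∃ A ∈ σ, A ≠ Y ∧ ∀ i ∈ T, A i = Y i

lemma IsCenter.mono {m : ℕ} {σ τ : Finset (Fin n → Bool)} {Y : Fin n → Bool} (h : σ ⊆ τ)
    (hY : IsCenter m σ Y) : IsCenter m τ Y := by
  intro T hT
  obtain ⟨A, hA, h1, h2⟩ := hY T hT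
  exact ⟨A, h hA, h1, h2⟩

lemma IsCenter.erase {m : ℕ} {σ : Finset (Fin n → Bool)} {Y : Fin n → Bool}
    (hY : IsCenter m σ Y) : IsCenter m (σ.erase Y) Y := by
  intro T hT
  obtain ⟨A, hA, h1, h2⟩ := hY T hT
  exact ⟨A, Finset.mem_erase.mpr ⟨h1, hA⟩, h1, h2⟩

/-- a point within distance `r` of all of `σ` is within distance `r` of all centres -/
lemma IsCenter.dist_le {r m : ℕ} (hm : r + 1 ≤ m) {σ : Finset (Fin n → Bool)} {Y w : Fin n → Bool}
    (hY : IsCenter m σ Y) (hw : ∀ A ∈ σ, hammingDist w A ≤ r) : hammingDist w Y ≤ r := by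
  by_contra hlt
  push Not at hlt
  rw [hammingDist] at hlt
  obtain ⟨T, hT1, hT2⟩ := Finset.exists_subset_card_eq (Nat.succ_le_of_lt hlt)
  obtain ⟨A, hA, -, h2⟩ := hY T (by omega)
  have h3 := hw A hA
  have h4 : T.card ≤ hammingDist w A := by
    rw [hammingDist]
    apply Finset.card_le_card
    intro i hi
    have := hT1 hi
    simp only [Finset.mem_filter, Finset.mem_univ, true_and] at this ⊢
    rw [h2 i hi]; exact this
  omega

open Classical in
/-- closure: add all centres -/
noncomputable def cl (m : ℕ) (σ : Finset (Fin n → Bool)) : Finset (Fin n → Bool) :=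
  σ ∪ univ.filter (fun Y => IsCenter m σ Y)

lemma mem_cl {m : ℕ} {σ : Finset (Fin n → Bool)} {Y : Fin n → Bool} :
    Y ∈ cl m σ ↔ Y ∈ σ ∨ IsCenter m σ Y := by
  classical
  simp [cl]

lemma subset_cl (m : ℕ) (σ : Finset (Fin n → Bool)) : σ ⊆ cl m σ := by
  intro x hx
  exact mem_cl.mpr (Or.inl hx)

lemma cl_mono {m : ℕ} {σ τ : Finset (Fin n → Bool)} (h : σ ⊆ τ) : cl m σ ⊆ cl m τ := by
  intro x hx
  rcases mem_cl.mp hx with h1 | h1
  · exact mem_cl.mpr (Or.inl (h h1))
  · exact mem_cl.mpr (Or.inr (h1.mono h))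

/-- one step suffices: the closure is idempotent -/
lemma cl_cl (m : ℕ) (σ : Finset (Fin n → Bool)) : cl m (cl m σ) = cl m σ := by
  apply Finset.Subset.antisymm _ (subset_cl m _)
  intro Z hZ
  rcases mem_cl.mp hZ with h1 | h1
  · exact h1
  · by_contra hne
    rw [mem_cl, not_or] at hne
    obtain ⟨hZσ, hnc⟩ := hne
    rw [IsCenter] at hnc
    push Not at hnc
    obtain ⟨T, hT, hT2⟩ := hnc
    obtain ⟨Y, hY, hYZ, hYT⟩ := h1 T hT
    rcases mem_cl.mp hY with h3 | h3
    · obtain ⟨i, hi, hi2⟩ := hT2 Y h3 hYZ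
      exact hi2 (hYT i hi)
    · obtain ⟨A, hA, hAY, hAT⟩ := h3 T hT
      have hAZ : A ≠ Z := fun h => hZσ (h ▸ hA)
      obtain ⟨i, hi, hi2⟩ := hT2 A hA hAZ
      exact hi2 (by rw [hAT i hi, hYT i hi])

/-- the closure does not create new coordinate values -/
lemma cl_value {m : ℕ} (hm : 1 ≤ m) {σ : Finset (Fin n → Bool)} {Y : Fin n → Bool}
    (hY : Y ∈ cl m σ) (i : Fin n) : ∃ A ∈ σ, A i = Y i := by
  rcases mem_cl.mp hY with h | h
  · exact ⟨Y, h, rfl⟩
  · obtain ⟨A, hA, -, h2⟩ := h {i} (by simpa using hm)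
    exact ⟨A, hA, h2 i (by simp)⟩

lemma cl_dist {r m : ℕ} (hm : r + 1 ≤ m) {σ : Finset (Fin n → Bool)}
    (hσ : ∀ x ∈ σ, ∀ y ∈ σ, hammingDist x y ≤ r) :
    ∀ x ∈ cl m σ, ∀ y ∈ cl m σ, hammingDist x y ≤ r := by
  have h1 : ∀ x ∈ σ, ∀ y ∈ cl m σ, hammingDist x y ≤ r := by
    intro x hx y hy
    rcases mem_cl.mp hy with h | h
    · exact hσ x hx y h
    · exact h.dist_le hm (fun A hA => hσ x hx A hA)
  intro x hx y hy
  rcases mem_cl.mp hy with h | h
  · rw [hammingDist_comm]; exact h1 y h x hx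
  · exact h.dist_le hm (fun A hA => by rw [hammingDist_comm]; exact h1 A hA x hx)

/-- extreme points: for every value attained on the closed set `N` in a coordinate `i`, it is
attained at a non-centre of `N` -/
lemma ext_value {r m : ℕ} (hm : r + 1 ≤ m) {N : Finset (Fin n → Bool)}
    (hN : ∀ x ∈ N, ∀ y ∈ N, hammingDist x y ≤ r) {Y₀ : Fin n → Bool} (hY₀ : Y₀ ∈ N) (i : Fin n) :
    ∃ A ∈ N, ¬ IsCenter m N A ∧ A i = Y₀ i := by
  by_contra hne
  push Not at hne
  have hall : ∀ A ∈ N, A i = Y₀ i → IsCenter m N A := by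
    intro A hA hAi
    by_contra hc
    exact hne A hA hc hAi
  set N₁ := N.filter (fun A => A i = Y₀ i) with hN₁
  have hne1 : (N₁ ×ˢ N₁).Nonempty := ⟨(Y₀, Y₀), by simp [hN₁, hY₀]⟩
  obtain ⟨⟨Y, Y'⟩, hYY, hmax⟩ := Finset.exists_max_image (N₁ ×ˢ N₁)
    (fun x => hammingDist x.1 x.2) hne1
  simp only [Finset.mem_product] at hYY
  have hY : Y ∈ N ∧ Y i = Y₀ i := by simpa [hN₁] using hYY.1
  have hY' : Y' ∈ N ∧ Y' i = Y₀ i := by simpa [hN₁] using hYY.2
  have hc := hall Y hY.1 hY.2
  set D := univ.filter (fun j => Y j ≠ Y' j) with hD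
  have hDc : D.card ≤ r := hN Y hY.1 Y' hY'.1
  obtain ⟨A, hA, hAY, hAT⟩ := hc (insert i D) (le_trans (Finset.card_insert_le _ _) (by omega))
  have hAN₁ : A ∈ N₁ := by
    simp only [hN₁, Finset.mem_filter]
    refine ⟨hA, ?_⟩
    rw [hAT i (by simp)]; exact hY.2
  have h1 := hmax (A, Y') (by simp only [Finset.mem_product]; exact ⟨hAN₁, hYY.2⟩)
  simp only at h1
  have h2 : ∃ j, A j ≠ Y j := by
    by_contra h; push Not at h; exact hAY (funext h)
  obtain ⟨j, hj⟩ := h2
  have h3 : hammingDist Y Y' < hammingDist A Y' := by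
    rw [hammingDist, hammingDist]
    apply Finset.card_lt_card
    rw [Finset.ssubset_iff_of_subset]
    · refine ⟨j, ?_, ?_⟩
      · simp only [Finset.mem_filter, Finset.mem_univ, true_and]
        intro h
        have hjD : j ∉ D := by
          intro hjD
          exact hj (hAT j (Finset.mem_insert_of_mem hjD))
        simp only [hD, Finset.mem_filter, Finset.mem_univ, true_and, not_not] at hjD
        rw [← hjD] at h
        exact hj h
      · simp only [Finset.mem_filter, Finset.mem_univ, true_and, not_not]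
        by_contra hjD
        exact hj (hAT j (Finset.mem_insert_of_mem (by simp [hD, hjD])))
    · intro k hk
      have hk' : k ∈ D := hk
      simp only [Finset.mem_filter, Finset.mem_univ, true_and] at hk ⊢
      rw [hAT k (Finset.mem_insert_of_mem hk')]
      exact hk
  omega

lemma geom_step (m j : ℕ) :
    m * (∑ i ∈ Finset.Icc 1 j, m ^ i + 1) = ∑ i ∈ Finset.Icc 1 (j + 1), m ^ i := by
  induction j with
  | zero => simp
  | succ j ih =>
    rw [Finset.sum_Icc_succ_top (by omega : 1 ≤ j + 1 + 1), ← ih]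
    have h := ih
    rw [Finset.sum_Icc_succ_top (by omega : 1 ≤ j + 1)] at h
    calc m * (m * (∑ i ∈ Icc 1 j, m ^ i + 1) + 1)
        = m * (∑ i ∈ Icc 1 j, m ^ i + m ^ (j + 1) + 1) := by rw [h]
      _ = m * (∑ i ∈ Icc 1 j, m ^ i + 1) + m ^ (j + 1 + 1) := by ring

/-- tree argument: if there is no `m`-centre, the coordinates in which elements of `σ` near `Y`
differ from `Y` are few -/
lemma tree (m : ℕ) (σ : Finset (Fin n → Bool)) (hσ : ∀ Y, ¬ IsCenter m σ Y) (j : ℕ) :
    ∀ Y : Fin n → Bool, (univ.filter fun i => ∃ A ∈ σ, hammingDist Y A ≤ j ∧ A i ≠ Y i).card ≤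
      ∑ i ∈ Finset.Icc 1 j, m ^ i := by
  induction j with
  | zero =>
    intro Y
    simp only [Nat.le_zero, hammingDist_eq_zero]
    have : (univ.filter fun i => ∃ A ∈ σ, Y = A ∧ A i ≠ Y i) = ∅ := by
      rw [Finset.filter_eq_empty_iff]
      rintro i - ⟨A, -, h1, h2⟩
      exact h2 (by rw [h1])
    rw [this]; simp
  | succ j ih =>
    intro Y
    have h1 := hσ Y
    rw [IsCenter] at h1
    push Not at h1
    obtain ⟨T, hT, hT2⟩ := h1
    have hsub : (univ.filter fun i => ∃ A ∈ σ, hammingDist Y A ≤ j + 1 ∧ A i ≠ Y i) ⊆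
        T.biUnion (fun t => insert t (univ.filter fun i => ∃ A ∈ σ,
          hammingDist (Function.update Y t (!(Y t))) A ≤ j ∧
            A i ≠ Function.update Y t (!(Y t)) i)) := by
      intro i hi
      simp only [Finset.mem_filter, Finset.mem_univ, true_and] at hi
      obtain ⟨A, hA, hd, hAi⟩ := hi
      have hAY : A ≠ Y := fun h => hAi (by rw [h])
      obtain ⟨t, ht, ht2⟩ := hT2 A hA hAY
      simp only [Finset.mem_biUnion]
      refine ⟨t, ht, ?_⟩
      by_cases hit : i = t
      · simp [hit]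
      · simp only [Finset.mem_insert, hit, false_or, Finset.mem_filter, Finset.mem_univ, true_and]
        refine ⟨A, hA, ?_, ?_⟩
        · have hlt : hammingDist (Function.update Y t (!(Y t))) A < hammingDist Y A := by
            rw [hammingDist, hammingDist]
            apply Finset.card_lt_card
            rw [Finset.ssubset_iff_of_subset]
            · refine ⟨t, ?_, ?_⟩
              · simp only [Finset.mem_filter, Finset.mem_univ, true_and]
                exact fun h => ht2 h.symm
              · simp only [Finset.mem_filter, Finset.mem_univ, true_and, not_not,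
                  Function.update_self]
                cases hA' : A t <;> cases hY' : Y t <;> simp_all
            · intro k hk
              simp only [Finset.mem_filter, Finset.mem_univ, true_and] at hk ⊢
              by_cases hkt : k = t
              · rw [hkt]; exact fun h => ht2 h.symm
              · rw [Function.update_of_ne hkt] at hk
                exact hk
          omega
        · rw [Function.update_of_ne hit]; exact hAi
    refine le_trans (Finset.card_le_card hsub) (le_trans Finset.card_biUnion_le ?_)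
    calc ∑ t ∈ T, (insert t (univ.filter fun i => ∃ A ∈ σ,
          hammingDist (Function.update Y t (!(Y t))) A ≤ j ∧
            A i ≠ Function.update Y t (!(Y t)) i)).card
        ≤ ∑ t ∈ T, (∑ i ∈ Finset.Icc 1 j, m ^ i + 1) := by
          apply Finset.sum_le_sum
          intro t _
          exact le_trans (Finset.card_insert_le _ _) (by have := ih (Function.update Y t (!(Y t))); omega)
      _ = T.card * (∑ i ∈ Finset.Icc 1 j, m ^ i + 1) := by simp
      _ ≤ m * (∑ i ∈ Finset.Icc 1 j, m ^ i + 1) := Nat.mul_le_mul_right _ hT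
      _ = ∑ i ∈ Finset.Icc 1 (j + 1), m ^ i := by
          exact geom_step m j

end Pool.Agent.Helper74.Center
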