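import Mathlib

open Finset

namespace Pool.Agent.Helper74.Toggle

variable {V O K : Type*} [Fintype V] [DecidableEq V] [LinearOrder O] [CommRing K]

/-- sign of the vertex `v` relative to the set `τ` -/
def sgn (K : Type*) [CommRing K] (e : V → O) (τ : Finset V) (v : V) : K :=
  (-1) ^ (τ.filter fun w => e w < e v).card

omit [Fintype V] [DecidableEq V] in
lemma sgn_mul_self (e : V → O) (τ : Finset V) (v : V) : sgn K e τ v * sgn K e τ v = 1 := by
  unfold sgn
  rw [← mul_pow]; simp

omit [Fintype V] in
lemma sgn_insert (e : V → O) (ρ : Finset V) (c v : V) (hc : c ∉ ρ) :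
    sgn K e (insert c ρ) v = sgn K e ρ v * (if e c < e v then -1 else 1) := by
  unfold sgn
  rw [Finset.filter_insert]
  split_ifs with h
  · rw [Finset.card_insert_of_notMem (by simp [hc]), pow_succ]
  · simp

omit [Fintype V] in
lemma sgn_swap (e : V → O) (he : Function.Injective e) (ρ : Finset V) (c v : V) (hc : c ∉ ρ)
    (hv : v ∉ ρ) (hcv : c ≠ v) :
    sgn K e ρ c * sgn K e ρ v + sgn K e (insert c ρ) v * sgn K e (insert v ρ) c = 0 := by
  rw [sgn_insert e ρ c v hc, sgn_insert e ρ v c hv]
  have hne : e c ≠ e v := fun h => hcv (he h)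
  rcases lt_or_gt_of_ne hne with h | h
  · rw [if_pos h, if_neg (not_lt.mpr h.le)]; ring
  · rw [if_neg (not_lt.mpr h.le), if_pos h]; ring

omit [Fintype V] in
lemma sgn_swap' (e : V → O) (he : Function.Injective e) (ρ : Finset V) (c v : V) (hc : c ∉ ρ)
    (hv : v ∉ ρ) (hcv : c ≠ v) :
    sgn K e ρ v * sgn K e (insert v ρ) c + sgn K e ρ c * sgn K e (insert c ρ) v = 0 := by
  rw [sgn_insert e ρ c v hc, sgn_insert e ρ v c hv]
  have hne : e c ≠ e v := fun h => hcv (he h)
  rcases lt_or_gt_of_ne hne with h | h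
  · rw [if_pos h, if_neg (not_lt.mpr h.le)]; ring
  · rw [if_neg (not_lt.mpr h.le), if_pos h]; ring

open Classical in
/-- boundary restricted to the family `F` -/
noncomputable def bd (e : V → O) (F : Finset V → Prop) (f : Finset V → K) (τ : Finset V) : K :=
  if F τ then ∑ v ∈ univ.filter (fun v => v ∉ τ), sgn K e τ v * f (insert v τ) else 0

open Classical in
/-- homotopy given by adding the toggle vertex -/
noncomputable def ht (e : V → O) (F : Finset V → Prop) (c : Finset V → V) (f : Finset V → K)
    (σ : Finset V) : K :=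
  if F σ ∧ c σ ∈ σ then sgn K e (σ.erase (c σ)) (c σ) * f (σ.erase (c σ)) else 0

lemma bd_bd (e : V → O) (he : Function.Injective e) (F : Finset V → Prop)
    (hconv : ∀ ρ τ σ : Finset V, ρ ⊆ τ → τ ⊆ σ → F ρ → F σ → F τ)
    (f : Finset V → K) (hf : ∀ σ, f σ ≠ 0 → F σ) (ρ : Finset V) : bd e F (bd e F f) ρ = 0 := by
  classical
  by_cases hρ : F ρ
  swap
  · simp [bd, hρ]
  have h1 : bd e F (bd e F f) ρ = ∑ x : V × V, (if x.1 ∉ ρ ∧ x.2 ∉ ρ ∧ x.1 ≠ x.2 then
      sgn K e ρ x.1 * (sgn K e (insert x.1 ρ) x.2 * f (insert x.2 (insert x.1 ρ))) else 0) := by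
    rw [Fintype.sum_prod_type]
    rw [bd, if_pos hρ, Finset.sum_filter]
    apply Finset.sum_congr rfl
    intro v _
    by_cases hv : v ∉ ρ
    · rw [if_pos hv, bd]
      by_cases hF : F (insert v ρ)
      · rw [if_pos hF, Finset.sum_filter, Finset.mul_sum]
        apply Finset.sum_congr rfl
        intro w _
        by_cases hw : w ∉ ρ ∧ v ≠ w
        · have : w ∉ insert v ρ := by
            simp only [Finset.mem_insert, not_or]
            exact ⟨fun h => hw.2 h.symm, hw.1⟩
          rw [if_pos this, if_pos ⟨hv, hw⟩]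
        · have : ¬ (w ∉ insert v ρ) := by
            simp only [Finset.mem_insert, not_or, not_and, not_not]
            intro h
            by_contra h2
            exact hw ⟨h2, fun h3 => h h3.symm⟩
          rw [if_neg this, if_neg (fun h => hw h.2)]
          simp
      · rw [if_neg hF, mul_zero]
        symm
        apply Finset.sum_eq_zero
        intro w _
        split_ifs with h
        · have : f (insert w (insert v ρ)) = 0 := by
            by_contra hne
            apply hF
            exact hconv ρ (insert v ρ) (insert w (insert v ρ)) (Finset.subset_insert _ _)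
              (Finset.subset_insert _ _) hρ (hf _ hne)
          rw [this]; simp
        · rfl
    · rw [if_neg hv]
      symm
      apply Finset.sum_eq_zero
      intro w _
      rw [if_neg (fun h => hv h.1)]
  rw [h1]
  apply Finset.sum_involution (fun x _ => (x.2, x.1))
  · intro x _
    by_cases hx : x.1 ∉ ρ ∧ x.2 ∉ ρ ∧ x.1 ≠ x.2
    · rw [if_pos hx, if_pos ⟨hx.2.1, hx.1, hx.2.2.symm⟩]
      have := sgn_swap' (K := K) e he ρ x.2 x.1 hx.2.1 hx.1 hx.2.2.symm
      simp only
      rw [Finset.insert_comm x.1 x.2 ρ]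
      linear_combination (f (insert x.2 (insert x.1 ρ))) * this
    · rw [if_neg hx, if_neg (fun h => hx ⟨h.2.1, h.1, h.2.2.symm⟩), add_zero]
  · intro x _ hne heq
    by_cases hx : x.1 ∉ ρ ∧ x.2 ∉ ρ ∧ x.1 ≠ x.2
    · exact hx.2.2 (congrArg Prod.snd heq)
    · exact hne (if_neg hx)
  · intro x _; simp
  · intro x _; rfl


lemma bd_supp (e : V → O) (F : Finset V → Prop) (f : Finset V → K) (τ : Finset V)
    (h : bd e F f τ ≠ 0) : F τ := by
  by_contra hF
  exact h (by simp [bd, hF])

omit [Fintype V] in
lemma ht_supp (e : V → O) (F : Finset V → Prop) (c : Finset V → V) (f : Finset V → K)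
    (τ : Finset V) (h : ht e F c f τ ≠ 0) : F τ := by
  by_contra hF
  exact h (by simp [ht, hF])

/-- the homotopy identity -/
lemma key (e : V → O) (he : Function.Injective e) (F : Finset V → Prop)
    (cl : Finset V → Finset V) (c : Finset V → V)
    (hmono : ∀ σ τ, F σ → F τ → σ ⊆ τ → cl σ ⊆ cl τ)
    (hc : ∀ σ τ, F σ → F τ → cl σ = cl τ → c σ = c τ)
    (hins : ∀ σ, F σ → F (insert (c σ) σ) ∧ cl (insert (c σ) σ) = cl σ)
    (hers : ∀ σ, F σ → F (σ.erase (c σ)) ∧ cl (σ.erase (c σ)) = cl σ)
    (j : ℕ) (f : Finset V → K) (hf : ∀ σ, f σ ≠ 0 → F σ ∧ (cl σ).card ≤ j)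
    (τ : Finset V) (hτ : F τ) (hj : j ≤ (cl τ).card) :
    bd e F (ht e F c f) τ + ht e F c (bd e F f) τ = f τ := by
  classical
  have hcl : ∀ σ, F σ → (cl σ).card ≤ j → τ ⊆ σ → cl τ = cl σ := by
    intro σ hσ h1 h2
    exact Finset.eq_of_subset_of_card_le (hmono τ σ hτ hσ h2) (le_trans h1 hj)
  by_cases hcτ : c τ ∈ τ
  · set cc := c τ with hcc
    set ρ := τ.erase cc with hρ
    have hρF := hers τ hτ
    rw [← hcc, ← hρ] at hρF
    have hcρ : cc ∉ ρ := by simp [hρ]
    have hτρ : τ = insert cc ρ := by rw [hρ, Finset.insert_erase hcτ]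
    have hclρ : ∀ σ, F σ → (cl σ).card ≤ j → ρ ⊆ σ → cl ρ = cl σ := by
      intro σ hσ h1 h2
      apply Finset.eq_of_subset_of_card_le (hmono ρ σ hρF.1 hσ h2)
      rw [hρF.2]; exact le_trans h1 hj
    have hnotin : ∀ v, v ∉ ρ ↔ v = cc ∨ v ∉ τ := by
      intro v
      rw [hτρ, Finset.mem_insert, not_or]
      constructor
      · intro h
        by_cases hv : v = cc
        · exact Or.inl hv
        · exact Or.inr ⟨hv, h⟩
      · rintro (h | h)
        · rw [h]; exact hcρ
        · exact h.2
    have h1 : ht e F c (bd e F f) τ = sgn K e ρ cc * bd e F f ρ := by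
      rw [ht, if_pos ⟨hτ, hcτ⟩]
    have h2 : bd e F f ρ = sgn K e ρ cc * f τ +
        ∑ v ∈ univ.filter (fun v => v ∉ τ), sgn K e ρ v * f (insert v ρ) := by
      rw [bd, if_pos hρF.1]
      have : univ.filter (fun v => v ∉ ρ) = insert cc (univ.filter (fun v => v ∉ τ)) := by
        ext v
        simp only [Finset.mem_filter, Finset.mem_univ, true_and, Finset.mem_insert]
        exact hnotin v
      rw [this, Finset.sum_insert (by simp [hcτ])]
      rw [← hτρ]
    have h3 : bd e F (ht e F c f) τ = ∑ v ∈ univ.filter (fun v => v ∉ τ),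
        sgn K e τ v * (sgn K e (insert v ρ) cc * f (insert v ρ)) := by
      rw [bd, if_pos hτ]
      apply Finset.sum_congr rfl
      intro v hv
      simp only [Finset.mem_filter, Finset.mem_univ, true_and] at hv
      congr 1
      have hvc : v ≠ cc := fun h => hv (by rw [h]; exact hcτ)
      have hvρ : v ∉ ρ := (hnotin v).mpr (Or.inr hv)
      have hins_eq : insert v τ = insert cc (insert v ρ) := by
        rw [hτρ, Finset.insert_comm]
      have hers_eq : (insert v τ).erase cc = insert v ρ := by
        rw [hins_eq, Finset.erase_insert]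
        simp only [Finset.mem_insert, not_or]
        exact ⟨hvc.symm, hcρ⟩
      by_cases hfz : f (insert v ρ) = 0
      · rw [hfz, mul_zero]
        by_contra hne
        have hFσ : F (insert v τ) := ht_supp e F c f _ hne
        by_cases hcσ : c (insert v τ) ∈ insert v τ
        · rw [ht, if_pos ⟨hFσ, hcσ⟩] at hne
          have hfne : f ((insert v τ).erase (c (insert v τ))) ≠ 0 := by
            intro h; rw [h] at hne; simp at hne
          have := hf _ hfne
          have hers' := hers _ hFσ
          rw [hers'.2] at this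
          have heq := hcl _ hFσ this.2 (Finset.subset_insert _ _)
          have hceq := hc τ (insert v τ) hτ hFσ heq
          rw [← hceq, ← hcc, hers_eq] at hfne
          exact hfne hfz
        · rw [ht, if_neg (fun h => hcσ h.2)] at hne
          exact hne rfl
      · have hfF := hf _ hfz
        have heq := hclρ _ hfF.1 hfF.2 (Finset.subset_insert _ _)
        have hceq1 : c τ = c ρ := hc τ ρ hτ hρF.1 hρF.2.symm
        have hceq : c ρ = c (insert v ρ) := hc ρ (insert v ρ) hρF.1 hfF.1 heq
        have hi := hins _ hfF.1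
        rw [← hceq, ← hceq1, ← hcc, ← hins_eq] at hi
        have hcl2 : cl τ = cl (insert v τ) := by
          rw [hi.2, ← heq, hρF.2]
        have hc2 : c τ = c (insert v τ) := hc τ _ hτ hi.1 hcl2
        rw [ht, if_pos ⟨hi.1, by rw [← hc2, ← hcc]; simp [hcτ]⟩, ← hc2, ← hcc, hers_eq]
    rw [h1, h2, h3, mul_add, ← mul_assoc, sgn_mul_self, one_mul, Finset.mul_sum, add_comm,
      add_assoc, ← Finset.sum_add_distrib, Finset.sum_eq_zero, add_zero]
    intro v hv
    simp only [Finset.mem_filter, Finset.mem_univ, true_and] at hv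
    have hvc : v ≠ cc := fun h => hv (by rw [h]; exact hcτ)
    have hvρ : v ∉ ρ := (hnotin v).mpr (Or.inr hv)
    have := sgn_swap (K := K) e he ρ cc v hcρ hvρ hvc.symm
    rw [← hτρ] at this
    linear_combination (f (insert v ρ)) * this
  · have h1 : ht e F c (bd e F f) τ = 0 := by
      rw [ht, if_neg (fun h => hcτ h.2)]
    rw [h1, add_zero, bd, if_pos hτ]
    rw [Finset.sum_eq_single_of_mem (c τ) (by simp [hcτ])]
    · have hi := hins τ hτ
      have hceq : c τ = c (insert (c τ) τ) := hc _ _ hτ hi.1 hi.2.symm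
      rw [ht, if_pos ⟨hi.1, by rw [← hceq]; simp⟩, ← hceq, Finset.erase_insert hcτ, ← mul_assoc,
        sgn_mul_self, one_mul]
    · intro v hv hvc
      simp only [Finset.mem_filter, Finset.mem_univ, true_and] at hv
      by_contra hne
      have hne' : ht e F c f (insert v τ) ≠ 0 := by
        intro h; rw [h] at hne; simp at hne
      have hFσ : F (insert v τ) := ht_supp e F c f _ hne'
      by_cases hcσ : c (insert v τ) ∈ insert v τ
      · rw [ht, if_pos ⟨hFσ, hcσ⟩] at hne'
        have hfne : f ((insert v τ).erase (c (insert v τ))) ≠ 0 := by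
          intro h; rw [h] at hne'; simp at hne'
        have := hf _ hfne
        have hers' := hers _ hFσ
        rw [hers'.2] at this
        have heq := hcl _ hFσ this.2 (Finset.subset_insert _ _)
        have hceq := hc τ (insert v τ) hτ hFσ heq
        rw [← hceq, Finset.mem_insert] at hcσ
        rcases hcσ with h | h
        · exact hvc h.symm
        · exact hcτ h
      · rw [ht, if_neg (fun h => hcσ h.2)] at hne'
        exact hne' rfl

lemma bd_add (e : V → O) (F : Finset V → Prop) (f g : Finset V → K) :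
    bd e F (f + g) = bd e F f + bd e F g := by
  classical
  funext τ
  simp only [bd, Pi.add_apply]
  split_ifs
  · rw [← Finset.sum_add_distrib]
    exact Finset.sum_congr rfl (fun v _ => by ring)
  · simp

lemma bd_sub (e : V → O) (F : Finset V → Prop) (f g : Finset V → K) :
    bd e F (f - g) = bd e F f - bd e F g := by
  classical
  funext τ
  simp only [bd, Pi.sub_apply]
  split_ifs
  · rw [← Finset.sum_sub_distrib]
    exact Finset.sum_congr rfl (fun v _ => by ring)
  · simp

lemma bd_zero (e : V → O) (F : Finset V → Prop) : bd e F (0 : Finset V → K) = 0 := by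
  classical
  funext τ
  simp [bd]

lemma bd_card (e : V → O) (F : Finset V → Prop) (f : Finset V → K) (k : ℤ)
    (hf : ∀ σ, f σ ≠ 0 → (σ.card : ℤ) = k + 1) (τ : Finset V) (h : bd e F f τ ≠ 0) :
    (τ.card : ℤ) = k := by
  classical
  by_contra hk
  apply h
  rw [bd]
  split_ifs
  · apply Finset.sum_eq_zero
    intro v hv
    simp only [Finset.mem_filter, Finset.mem_univ, true_and] at hv
    by_contra hne
    have : f (insert v τ) ≠ 0 := by
      intro h0; rw [h0] at hne; simp at hne
    have := hf _ this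
    rw [Finset.card_insert_of_notMem hv] at this
    push_cast at this
    exact hk (by linarith)
  · rfl

omit [Fintype V] in
lemma ht_card (e : V → O) (F : Finset V → Prop) (c : Finset V → V) (f : Finset V → K) (k : ℤ)
    (hf : ∀ σ, f σ ≠ 0 → (σ.card : ℤ) = k) (τ : Finset V) (h : ht e F c f τ ≠ 0) :
    (τ.card : ℤ) = k + 1 := by
  classical
  by_cases hF : F τ ∧ c τ ∈ τ
  · rw [ht, if_pos hF] at h
    have : f (τ.erase (c τ)) ≠ 0 := by
      intro h0; rw [h0] at h; simp at h
    have := hf _ this
    rw [Finset.card_erase_of_mem hF.2] at this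
    have hpos : 0 < τ.card := Finset.card_pos.mpr ⟨_, hF.2⟩
    omega
  · rw [ht, if_neg hF] at h
    exact absurd rfl h

/-- acyclicity of the restricted complex -/
theorem acyclic (e : V → O) (he : Function.Injective e) (F : Finset V → Prop)
    (hconv : ∀ ρ τ σ : Finset V, ρ ⊆ τ → τ ⊆ σ → F ρ → F σ → F τ)
    (cl : Finset V → Finset V) (c : Finset V → V)
    (hsub : ∀ σ, F σ → σ ⊆ cl σ)
    (hmono : ∀ σ τ, F σ → F τ → σ ⊆ τ → cl σ ⊆ cl τ)
    (hc : ∀ σ τ, F σ → F τ → cl σ = cl τ → c σ = c τ)
    (hins : ∀ σ, F σ → F (insert (c σ) σ) ∧ cl (insert (c σ) σ) = cl σ)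
    (hers : ∀ σ, F σ → F (σ.erase (c σ)) ∧ cl (σ.erase (c σ)) = cl σ)
    (k : ℤ) (j : ℕ) : ∀ (f : Finset V → K)
    (_ : ∀ σ, f σ ≠ 0 → F σ ∧ (cl σ).card ≤ j ∧ (σ.card : ℤ) = k)
    (_ : bd e F f = 0),
    ∃ b : Finset V → K, (∀ σ, b σ ≠ 0 → F σ ∧ (σ.card : ℤ) = k + 1) ∧ bd e F b = f := by
  classical
  induction j with
  | zero =>
    intro f hf hd
    refine ⟨0, by simp, ?_⟩
    rw [bd_zero]
    funext σ
    by_contra hne
    have h1 := hf σ (fun h => hne h.symm)
    have h2 := hins σ h1.1
    have h3 := hsub _ h2.1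
    rw [h2.2] at h3
    have h4 : c σ ∈ cl σ := h3 (Finset.mem_insert_self _ _)
    have h5 : 0 < (cl σ).card := Finset.card_pos.mpr ⟨_, h4⟩
    omega
  | succ j ih =>
    intro f hf hd
    have hbdht : bd e F (bd e F (ht e F c f)) = 0 := by
      funext ρ
      exact bd_bd e he F hconv _ (fun σ h => ht_supp e F c f σ h) ρ
    have hA : ∀ σ, (f - bd e F (ht e F c f)) σ ≠ 0 →
        F σ ∧ (cl σ).card ≤ j ∧ (σ.card : ℤ) = k := by
      intro τ hne
      have hFτ : F τ := by
        by_contra hF
        apply hne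
        have : f τ = 0 := by
          by_contra h; exact hF (hf _ h).1
        simp [this, bd, hF]
      refine ⟨hFτ, ?_, ?_⟩
      · by_contra hlt
        push Not at hlt
        have := key e he F cl c hmono hc hins hers (j+1) f (fun σ h => ⟨(hf σ h).1, (hf σ h).2.1⟩)
          τ hFτ (by omega)
        rw [hd] at this
        have hz : ht e F c (0 : Finset V → K) τ = 0 := by simp [ht]
        rw [hz, add_zero] at this
        apply hne
        simp [this]
      · by_cases h0 : f τ = 0
        · have h1 : bd e F (ht e F c f) τ ≠ 0 := by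
            intro h1; apply hne; simp [h0, h1]
          exact bd_card e F _ k (fun σ h => ht_card e F c f k (fun σ h => (hf σ h).2.2) σ h) τ h1
        · exact (hf τ h0).2.2
    have hB : bd e F (f - bd e F (ht e F c f)) = 0 := by
      rw [bd_sub, hd, hbdht, sub_zero]
    obtain ⟨b, hb, hb2⟩ := ih (f - bd e F (ht e F c f)) hA hB
    · refine ⟨ht e F c f + b, ?_, ?_⟩
      · intro σ hσ
        by_cases h0 : b σ = 0
        · have : ht e F c f σ ≠ 0 := by
            intro h1; apply hσ; simp [h0, h1]
          exact ⟨ht_supp e F c f σ this, ht_card e F c f k (fun σ h => (hf σ h).2.2) σ this⟩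
        · exact hb σ h0
      · rw [bd_add, hb2, add_sub_cancel]

end Pool.Agent.Helper74.Toggle
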